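import Pool.Agent.Helper37_CAP.Stmts

/-!
# Squad CAP, module SBD: the inequality of Bruck
-/

set_option autoImplicit false

open Finset

namespace Pool.Agent.CAP.H59

open Pool.Agent.CAP

theorem sbd : SBD := by
  intro k _ D hk hD t htD hx
  obtain ⟨x, hxD, hx⟩ := hx
  obtain ⟨τ, hτ⟩ : ∃ τ : ZMod (k * (k + 2)), τ = (t : ZMod (k * (k + 2))) := ⟨_, rfl⟩
  rw [← hτ] at htD hx ⊢
  classical
  obtain ⟨Y, hY⟩ : ∃ Y : Finset (ZMod (k * (k + 2))), Y = (Finset.univ : Finset _).filter
    (fun y => τ * y = y ∧ y ∉ D ∧ pr k (y - x) ≠ 0) := ⟨_, rfl⟩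
  obtain ⟨Z, hZ⟩ : ∃ Z : Finset (ZMod (k * (k + 2))), Z = (Finset.univ : Finset _).filter
    (fun y => τ * y = y ∧ pr k (y - x) = 0) := ⟨_, rfl⟩
  have hsub : (Finset.univ : Finset (ZMod (k * (k + 2)))).filter (fun g => τ * g = g) ⊆
      (Y ∪ D.filter (fun d => τ * d = d)) ∪ Z := by
    intro g hg
    rw [mem_filter] at hg
    rw [mem_union, mem_union, hY, hZ, mem_filter, mem_filter, mem_filter]
    by_cases h1 : pr k (g - x) = 0
    · exact Or.inr ⟨mem_univ _, hg.2, h1⟩
    · by_cases h2 : g ∈ D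
      · exact Or.inl (Or.inr ⟨h2, hg.2⟩)
      · exact Or.inl (Or.inl ⟨mem_univ _, hg.2, h2, h1⟩)
  have hYc : Y.card ≤ k := by
    have hch : ∀ y : ZMod (k * (k + 2)), ∃ d' : ZMod (k * (k + 2)), y ∈ Y →
        d' ∈ D ∧ ∃ d ∈ D, d - d' = y - x := by
      intro y
      by_cases hy : y ∈ Y
      · have hy' := hy
        rw [hY, mem_filter] at hy
        obtain ⟨d, hd, d', hd', he⟩ := hD.ex (y - x) hy.2.2.2
        exact ⟨d', fun _ => ⟨hd', d, hd, he⟩⟩
      · exact ⟨0, fun h => absurd h hy⟩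
    choose f hf using hch
    have h1 : Y.card ≤ (D.erase x).card := by
      refine Finset.card_le_card_of_injOn f (fun y hy => ?_) (fun y hy z hz hyz => ?_)
      · have hy' : y ∈ Y := hy
        obtain ⟨h1, d, hd, he⟩ := hf y hy'
        refine mem_coe.2 (mem_erase.2 ⟨?_, h1⟩)
        intro h2
        rw [h2] at he
        have h3 : d = y := sub_left_injective he
        rw [hY, mem_filter] at hy'
        exact hy'.2.2.1 (h3 ▸ hd)
      · have hy' : y ∈ Y := hy
        have hz' : z ∈ Y := hz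
        obtain ⟨h1, d, hd, he⟩ := hf y hy'
        obtain ⟨-, e, hee, he2⟩ := hf z hz'
        rw [← hyz] at he2
        obtain ⟨u, hu⟩ : ∃ u, u = f y := ⟨_, rfl⟩
        rw [← hu] at he he2 h1
        by_contra hne
        rw [hY, mem_filter] at hy' hz'
        have hde : d - e = y - z := by
          have : d - e = (d - u) - (e - u) := by ring
          rw [this, he, he2]
          ring
        have hdne : d ≠ e := by
          rintro rfl
          apply hne
          rw [sub_self] at hde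
          exact (sub_eq_zero.1 hde.symm)
        have h2 : d - e = τ * d - τ * e := by
          rw [← mul_sub, hde, mul_sub, hy'.2.1, hz'.2.1]
        have h3 := (hD.uniq d hd e hee (τ * d) (htD d hd) (τ * e) (htD e hee) h2 hdne).1
        have h4 : x - u = y - d := by
          have : y - d = (x - u) + ((y - x) - (d - u)) := by ring
          rw [this, he]
          ring
        have h5 : x - u = τ * x - τ * u := by
          rw [← mul_sub, h4, mul_sub, hy'.2.1, ← h3]
        have hxu : x ≠ u := by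
          intro h
          rw [h, sub_self] at h4
          have : d = y := (sub_eq_zero.1 h4.symm).symm
          exact hy'.2.2.1 (this ▸ hd)
        exact hx (hD.uniq x hxD u h1 (τ * x) (htD x hxD) (τ * u) (htD u h1) h5 hxu).1.symm
    rw [card_erase_of_mem hxD, hD.card] at h1
    omega
  have hZc : Z.card ≤ ((Finset.univ : Finset (ZMod (k * (k + 2)))).filter
      (fun g => τ * g = g ∧ pr k g = 0)).card := by
    rcases Z.eq_empty_or_nonempty with h | ⟨z, hz⟩
    · rw [h, card_empty]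
      exact Nat.zero_le _
    · rw [hZ, mem_filter] at hz
      refine Finset.card_le_card_of_injOn (fun y => y - z) (fun y hy => ?_)
        (fun y _ w _ h => sub_left_injective h)
      have hy' : y ∈ Z := hy
      rw [hZ, mem_filter] at hy'
      refine mem_coe.2 (mem_filter.2 ⟨mem_univ _, ?_, ?_⟩)
      · show τ * (y - z) = y - z
        rw [mul_sub, hy'.2.1, hz.2.1]
      · show pr k (y - z) = 0
        have : y - z = (y - x) - (z - x) := by ring
        rw [this, map_sub, hy'.2.2, hz.2.2, sub_zero]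
  have h1 := card_le_card hsub
  have h2 := card_union_le (Y ∪ D.filter (fun d => τ * d = d)) Z
  have h3 := card_union_le Y (D.filter (fun d => τ * d = d))
  omega

theorem sub (hA : SBA) (hB : SBB) (hC : SBC) (hDD : SBD) : SUB := by
  intro k D hk hD t ht hco htD h3
  have hne : NeZero (k * (k + 2)) := ⟨by positivity⟩
  have e1 := hA k D hk hD t ht hco htD
  obtain ⟨e2, e3⟩ := hB k D hk hD t ht hco htD h3
  have e4 := hC k D hk hD t htD
  rw [e2, e3] at e4
  obtain ⟨a, ha⟩ : ∃ a, a = Nat.gcd (t - 1) (k + 2) := ⟨_, rfl⟩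
  obtain ⟨b, hb⟩ : ∃ b, b = Nat.gcd (t - 1) k := ⟨_, rfl⟩
  obtain ⟨K, hK⟩ : ∃ K, K = (D.filter (fun d => (t : ZMod (k * (k + 2))) * d = d)).card := ⟨_, rfl⟩
  rw [← ha, ← hb, ← hK] at e4
  rw [← ha, ← hK] at e1
  rw [← ha] at h3
  obtain ⟨c, hc⟩ : ∃ c, K = c + 2 := ⟨K - 2, by omega⟩
  have hac : a = c + 3 := by omega
  have hbc : b = c + 1 := by
    rw [hc, hac] at e4
    have h5 : c + 2 - 1 = c + 1 := by omega
    rw [h5] at e4
    have h6 : (c + 2) * (c + 1) = (c + 2) * b := by
      have : (c + 3) * b = (c + 2) * b + b := by ring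
      omega
    exact (Nat.eq_of_mul_eq_mul_left (by omega) h6).symm
  rw [← ha, ← hb]
  refine ⟨by omega, ?_⟩
  by_cases hall : ∀ d ∈ D, (t : ZMod (k * (k + 2))) * d = d
  · right
    have hpr1 : pr k 1 ≠ 0 := by
      rw [map_one]
      have : Fact (1 < k + 2) := ⟨by omega⟩
      exact one_ne_zero
    obtain ⟨d, hd, d', hd', he⟩ := hD.ex 1 hpr1
    have h5 : (t : ZMod (k * (k + 2))) * 1 = 1 := by
      rw [← he, mul_sub, hall d hd, hall d' hd']
    have h6 : ((t - 1 : ℕ) : ZMod (k * (k + 2))) = 0 := by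
      rw [Nat.cast_sub ht, Nat.cast_one]
      rw [mul_one] at h5
      rw [h5, sub_self]
    exact (ZMod.natCast_eq_zero_iff _ _).1 h6
  · left
    push Not at hall
    have h5 := hDD k D hk hD t htD hall
    rw [e2, e3, ← ha, ← hb, ← hK, hc, hac, hbc] at h5
    rw [hbc]
    nlinarith

theorem ari (h1 : PLA) (h2 : PLN) (h3 : FXP) (h4 : SUB) : ARI := by
  rintro n ⟨P, L, hP, σ, o, hσ, ho, htr⟩
  obtain ⟨k, rfl⟩ : ∃ k, n = k + 1 := ⟨n - 1, by have := hP.two_le; omega⟩
  have hk : 1 ≤ k := by have := hP.two_le; omega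
  have hM : 1 ≤ k * (k + 2) := Nat.one_le_iff_ne_zero.2 (by positivity)
  obtain ⟨f, f1, f2, f3⟩ := h1 P (k * (k + 2)) σ o hM (by rw [hP.card]; ring) ho htr
  obtain ⟨D, hD, hp⟩ := h3 k hk (h2 k P L σ o f hP hσ ho f1 f2 f3)
  intro p hpp hpn j hj
  have hpow : ∀ i : ℕ, ∀ d ∈ D, ((p ^ i : ℕ) : ZMod (k * (k + 2))) * d ∈ D := by
    intro i
    induction i with
    | zero =>
      intro d hd
      simpa using hd
    | succ i ih =>
      intro d hd
      have : ((p ^ (i + 1) : ℕ) : ZMod (k * (k + 2))) * d =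
          (p : ZMod (k * (k + 2))) * (((p ^ i : ℕ) : ZMod (k * (k + 2))) * d) := by
        push_cast
        ring
      rw [this]
      exact hp p hpp hpn _ (ih d hd)
  have hco : Nat.Coprime (p ^ j) (k * (k + 2)) := by
    refine Nat.Coprime.pow_left j ?_
    rw [Nat.Prime.coprime_iff_not_dvd hpp]
    intro hd
    have h5 : p ∣ (k + 1) * (k + 1) := Dvd.dvd.mul_right hpn _
    have h6 : (k + 1) * (k + 1) = k * (k + 2) + 1 := by ring
    rw [h6] at h5
    have h7 := (Nat.dvd_add_right hd).1 h5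
    exact hpp.one_lt.ne' (Nat.dvd_one.1 h7)
  have h5 := h4 k D hk hD (p ^ j) (Nat.one_le_iff_ne_zero.2 (pow_ne_zero _ hpp.ne_zero)) hco
    (hpow j) hj
  have e1 : k + 1 - 1 = k := rfl
  have e2 : (k + 1) ^ 2 - 1 = k * (k + 2) := by
    have : (k + 1) ^ 2 = k * (k + 2) + 1 := by ring
    rw [this]
    rfl
  rw [e1, e2]
  exact h5

end Pool.Agent.CAP.H59
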